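import Mathlib

set_option autoImplicit false

open Polynomial

namespace Pool.Agent.H338R2

/-- the length (sum of absolute values of coefficients) of an integer polynomial -/
noncomputable def len (G : ℤ[X]) : ℤ := ∑ i ∈ G.support, |G.coeff i|

/-- Mahler measure of an integer polynomial -/
noncomputable def MZ (f : ℤ[X]) : ℝ := (f.map (Int.castRingHom ℂ)).mahlerMeasure

lemma len_nonneg (G : ℤ[X]) : 0 ≤ len G := Finset.sum_nonneg fun _ _ => abs_nonneg _

lemma one_le_len {G : ℤ[X]} (hG : G ≠ 0) : 1 ≤ len G := by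
  obtain ⟨i, hi⟩ := Polynomial.support_nonempty.mpr hG
  have h1 : |G.coeff i| ≤ len G :=
    Finset.single_le_sum (f := fun i => |G.coeff i|) (fun _ _ => abs_nonneg _) hi
  have h2 : 1 ≤ |G.coeff i| := Int.one_le_abs (by simpa using hi)
  linarith

lemma norm_eval_le (G : ℤ[X]) (z : ℂ) (n : ℕ) (hn : G.natDegree ≤ n) :
    ‖(G.map (Int.castRingHom ℂ)).eval z‖ ≤ (len G : ℝ) * (max 1 ‖z‖) ^ n := by
  rw [Polynomial.eval_map, Polynomial.eval₂_eq_sum, Polynomial.sum_def]
  refine (norm_sum_le _ _).trans ?_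
  rw [len, Int.cast_sum, Finset.sum_mul]
  refine Finset.sum_le_sum fun i hi => ?_
  rw [norm_mul, norm_pow]
  have h1 : ‖(Int.castRingHom ℂ) (G.coeff i)‖ = ((|G.coeff i| : ℤ) : ℝ) := by
    simp [Int.cast_abs]
  rw [h1]
  have h2 : ‖z‖ ^ i ≤ (max 1 ‖z‖) ^ n := by
    calc ‖z‖ ^ i ≤ (max 1 ‖z‖) ^ i := by
          gcongr; exact le_max_right _ _
      _ ≤ (max 1 ‖z‖) ^ n :=
          pow_le_pow_right₀ (le_max_left _ _) ((Polynomial.le_natDegree_of_mem_supp i hi).trans hn)
  gcongr

lemma MZ_monic {f : ℤ[X]} (hf : f.Monic) :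
    MZ f = ((f.map (Int.castRingHom ℂ)).roots.map (fun a => max 1 ‖a‖)).prod := by
  rw [MZ, mahlerMeasure_eq_leadingCoeff_mul_prod_roots, (hf.map _).leadingCoeff]
  simp

lemma natDegree_mapC {f : ℤ[X]} : (f.map (Int.castRingHom ℂ)).natDegree = f.natDegree :=
  Polynomial.natDegree_map_eq_of_injective (RingHom.injective_int _) f

lemma card_roots (f : ℤ[X]) : (f.map (Int.castRingHom ℂ)).roots.card = f.natDegree := by
  rw [IsAlgClosed.card_roots_eq_natDegree, natDegree_mapC]

/-- resultant of a monic integer polynomial as a product over complex roots -/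
lemma res_eq {f : ℤ[X]} (hf : f.Monic) (w : ℤ[X]) (n : ℕ) (hn : w.natDegree ≤ n) :
    ((resultant f w f.natDegree n : ℤ) : ℂ) =
      ((f.map (Int.castRingHom ℂ)).roots.map (fun z => (w.map (Int.castRingHom ℂ)).eval z)).prod := by
  have h := resultant_eq_prod_eval (f.map (Int.castRingHom ℂ)) (w.map (Int.castRingHom ℂ)) n
    (by rw [natDegree_mapC]; exact hn) (IsAlgClosed.splits _)
  rw [natDegree_mapC, resultant_map_map, (hf.map _).leadingCoeff, one_pow, one_mul] at h
  exact h

lemma prod_norm_le {ι : Type*} (s : Multiset ι) (u : ι → ℂ) (v : ι → ℝ) (h : ∀ i ∈ s, ‖u i‖ ≤ v i) :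
    ‖(s.map u).prod‖ ≤ (s.map v).prod := by
  induction s using Multiset.induction_on with
  | empty => simp
  | cons a s ih =>
    rw [Multiset.map_cons, Multiset.prod_cons, Multiset.map_cons, Multiset.prod_cons, norm_mul]
    have h1 := h a (Multiset.mem_cons_self a s)
    have h2 := ih (fun i hi => h i (Multiset.mem_cons_of_mem hi))
    exact mul_le_mul h1 h2 (norm_nonneg _) ((norm_nonneg _).trans h1)

/-- upper bound for the resultant -/
lemma res_upper {f : ℤ[X]} (hf : f.Monic) (G : ℤ[X]) (n : ℕ) (hn : G.natDegree ≤ n) :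
    |((resultant f G f.natDegree n : ℤ) : ℝ)| ≤ (len G : ℝ) ^ f.natDegree * (MZ f) ^ n := by
  have h1 : |((resultant f G f.natDegree n : ℤ) : ℝ)| = ‖((resultant f G f.natDegree n : ℤ) : ℂ)‖ := by
    rw [Complex.norm_intCast]
  rw [h1, res_eq hf G n hn]
  refine (prod_norm_le _ _ (fun z => (len G : ℝ) * (max 1 ‖z‖) ^ n)
    (fun z _ => norm_eval_le G z n hn)).trans ?_
  rw [Multiset.prod_map_mul, Multiset.map_const', Multiset.prod_replicate, card_roots,
    Multiset.prod_map_pow, ← MZ_monic hf]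

end Pool.Agent.H338R2
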